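import Pool.Agent.N913.LN.M1

/-!
# Uniform prime k-tuplets for almost all systems, at arbitrary arguments

The uniform prime k-tuplets conjecture asks for an `n` of size at most a power of the coefficients
at which all forms of an admissible system of linear forms take prime values. For 100 percent of
the systems with coefficients at most `H` we prove the asymptotic formula for the number of the `n`
with this property in ANY prescribed set `𝒩` of at least `(log H) ^ (k + ε)` integers of size at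
most `(log H) ^ C` (a single interval, the squares or the primes of an interval, any sparse set
without any structure). The expected number of such `n` has the order of `#𝒩 / (log H) ^ k`, so the
size of `𝒩` is best possible up to `ε`.

More generally: `f_a = P_a + ∑_(j < N) c_(a,j) X^j`, `a = 1, ..., r`, only the `N` lowest
coefficients vary (`|c_(a,j)| ≤ H`), the `P_a` are arbitrary integer polynomials of degree at most
`d` and height at most `H (log H)^A`, each polynomial `f_a` may occur up to `N - 1` times in the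
system, and the arguments `x_1(n), ..., x_k(n)` are arbitrary integers (different if they belong to
the same polynomial; every `n` has a common argument with at most `K` of the `n'`). For `N = 2`,
`P_a = 0`, `r = k`, `α_i = i`, `x_i(n) = n` these are the systems of `k` linear forms.
-/

set_option autoImplicit false

namespace Pool.Agent.Results.MP_746f10_nt.ArbitraryArguments

open Finset Polynomial

/-- the polynomials `f_a = P_a + ∑_(j < N) c_(a,j) X^j` -/
noncomputable def fam {r N : ℕ} (P : Fin r → ℤ[X]) (c : Fin r × Fin N → ℤ) (a : Fin r) : ℤ[X] :=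
  P a + ∑ j : Fin N, C (c (a, j)) * X ^ (j : ℕ)

/-- the number of the `n ∈ 𝒩` for which all numbers `|f_(α i)(x_i(n))|` are primes -/
noncomputable def primePoints {r k : ℕ} (α : Fin k → Fin r) (x : Fin k → ℕ → ℤ) (f : Fin r → ℤ[X])
    (𝒩 : Finset ℕ) : ℕ :=
  #(𝒩.filter (fun n => ∀ i, ((f (α i)).eval (x i n)).natAbs.Prime))

/-- the number of the `n ∈ 𝒩` for which no number `f_(α i)(x_i(n))` is divisible by a prime
`p < z` -/
noncomputable def siftedPoints {r k : ℕ} (α : Fin k → Fin r) (x : Fin k → ℕ → ℤ)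
    (f : Fin r → ℤ[X]) (𝒩 : Finset ℕ) (z : ℕ) : ℕ :=
  #(𝒩.filter (fun n => ∀ i, ∀ p ∈ (range z).filter Nat.Prime, ¬ (p : ℤ) ∣ (f (α i)).eval (x i n)))

/-- the singular series of the system on `𝒩`: the density in `𝒩` of the `n` for which no
`f_(α i)(x_i(n))` is divisible by a prime `p < z`, divided by the density `∏_(p < z) (1 - 1 / p)^k`
of `k` random integers -/
noncomputable def singularSeries {r k : ℕ} (α : Fin k → Fin r) (x : Fin k → ℕ → ℤ)
    (f : Fin r → ℤ[X]) (𝒩 : Finset ℕ) (z : ℕ) : ℝ :=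
  (siftedPoints α x f 𝒩 z / #𝒩 : ℝ) / ∏ p ∈ (range z).filter Nat.Prime, (1 - 1 / (p : ℝ)) ^ k

/-- **Prime k-tuplets for almost all systems, at arbitrary arguments.** Let `k ≥ 1`,
`α_1, ..., α_k ∈ {1, ..., r}` and let `N` be larger than the number of the `i` with `α_i = a`, for
every `a`. Let `d`, `A`, `C`, `K` be natural numbers, `0 < ε ≤ 1`, `0 < 8 k κ ≤ ε`. For all large `H`,
all integer polynomials `P_1, ..., P_r` of degree at most `d` with coefficients at most
`H (log H)^A` in absolute value, ALL finite sets `𝒩` of at least `(log H)^(k + ε)` indices and ALL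
integers `x_i(n)`, `|x_i(n)| ≤ (log H)^C` (`n ∈ 𝒩`, `i = 1, ..., k`), such that for every `n ∈ 𝒩`
the arguments `x_i(n)` of the same polynomial are distinct and at most `K` of the `n' ∈ 𝒩` have an
argument in common with `n` at the same polynomial: for all but at most `ε H^(r N)` of the integer
vectors `(c_(a,j))`, `|c_(a,j)| ≤ H`, the number of the `n ∈ 𝒩` such that all `|f_(α_i)(x_i(n))|`,
`i = 1, ..., k`, are primes, where `f_a = P_a + ∑_(j < N) c_(a,j) X^j`, is
`(𝔖 + θ (𝔖 + 1)) #𝒩 / (log H)^k`, `|θ| ≤ ε`, where `𝔖` is the singular series of the system on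
`𝒩`, over the primes below `κ log log H`. -/
theorem result (r k N : ℕ) (hk : 1 ≤ k) (α : Fin k → Fin r)
    (hN : ∀ a, #(univ.filter (fun i => α i = a)) < N) (d A C K : ℕ) (ε κ : ℝ) (hε : 0 < ε)
    (hε1 : ε ≤ 1) (hκ : 0 < κ) (hκε : 8 * k * κ ≤ ε) :
    ∃ H₀ : ℕ, ∀ H : ℕ, H₀ ≤ H → ∀ P : Fin r → ℤ[X], (∀ a, (P a).natDegree ≤ d) →
      (∀ a i, |((P a).coeff i : ℝ)| ≤ H * Real.log H ^ A) →
      ∀ (𝒩 : Finset ℕ) (x : Fin k → ℕ → ℤ), Real.log H ^ ((k : ℝ) + ε) ≤ #𝒩 →
      (∀ n ∈ 𝒩, ∀ i, |(x i n : ℝ)| ≤ Real.log H ^ C) →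
      (∀ n ∈ 𝒩, ∀ i j, α i = α j → x i n = x j n → i = j) →
      (∀ n ∈ 𝒩, #(𝒩.filter (fun n' => ∃ i j, α i = α j ∧ x i n = x j n')) ≤ K) →
      ∃ Bad : Finset (Fin r × Fin N → ℤ), (#Bad : ℝ) ≤ ε * H ^ (r * N) ∧
        ∀ c : Fin r × Fin N → ℤ, (∀ s, |c s| ≤ H) → c ∉ Bad →
          |(primePoints α x (fam P c) 𝒩 : ℝ) -
              singularSeries α x (fam P c) 𝒩 ⌊κ * Real.log (Real.log H)⌋₊ * #𝒩 /
                Real.log H ^ k| ≤
            ε * (singularSeries α x (fam P c) 𝒩 ⌊κ * Real.log (Real.log H)⌋₊ + 1) * #𝒩 /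
              Real.log H ^ k := by
  classical
  obtain ⟨H₀, h⟩ := Pool.Agent.N913.LN.mainN r k N hk α (fun a => hN a) d A C K ε hε hε1 κ hκ
    (by linarith) ε hε
  refine ⟨H₀, fun H hH P hPd hP 𝒩 x h1 h2 h3 h4 => ?_⟩
  have h5 := h H hH P hPd hP 𝒩 x h1 h2 (fun n hn i j hij ha hx => hij (h3 n hn i j ha hx)) h4
  refine ⟨_, h5, fun c hc hcB => ?_⟩
  have hcb : c ∈ Pool.Agent.N913.KS.box r N H := by
    unfold Pool.Agent.N913.KS.box
    rw [Fintype.mem_piFinset]
    intro s
    exact mem_Icc.2 (abs_le.1 (hc s))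
  have h6 := not_lt.1 (fun hh => hcB (mem_filter.2 ⟨hcb, hh⟩))
  obtain ⟨z, hz⟩ : ∃ z, z = ⌊κ * Real.log (Real.log H)⌋₊ := ⟨_, rfl⟩
  have hz' : Pool.Agent.N913.KT.zK κ H = z := hz.symm
  rw [hz'] at h6
  rw [← hz]
  have eQ : (𝒩.filter (fun n => ∀ i, ((Pool.Agent.N913.KS.pf P c (α i)).eval
      (x i n)).natAbs.Prime)).card = primePoints α x (fam P c) 𝒩 := rfl
  have eG : (𝒩.filter (fun n => ∀ i, ((Pool.Agent.N913.KS.pf P c (α i)).eval
      (x i n)).natAbs.Coprime (Pool.Agent.N913.MT.Wz z))).card =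
      siftedPoints α x (fam P c) 𝒩 z := by
    unfold siftedPoints
    congr 1
    apply filter_congr
    intro n _
    apply forall_congr'
    intro i
    rw [Pool.Agent.N913.KT.cop_Wz]
    rfl
  have eW : ((Pool.Agent.N913.MT.Wz z : ℝ) / Nat.totient (Pool.Agent.N913.MT.Wz z)) ^ k =
      (∏ p ∈ (range z).filter Nat.Prime, (1 - 1 / (p : ℝ)) ^ k)⁻¹ := by
    have hW0 : (Pool.Agent.N913.MT.Wz z : ℝ) ≠ 0 := by
      have := Pool.Agent.N913.MT.Wz_pos z
      positivity
    have hpf : (Pool.Agent.N913.MT.Wz z).primeFactors = (range z).filter Nat.Prime := by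
      ext p
      rw [Nat.mem_primeFactors, mem_filter, mem_range]
      constructor
      · rintro ⟨a, b, _⟩
        exact ⟨(Pool.Agent.N913.MT.dvd_Wz z p a).1 b, a⟩
      · rintro ⟨a, b⟩
        refine ⟨b, (Pool.Agent.N913.MT.dvd_Wz z p b).2 a, ?_⟩
        have := Pool.Agent.N913.MT.Wz_pos z
        omega
    rw [Pool.Agent.N913.MT.tot_prod, hpf, Finset.prod_pow, ← inv_pow]
    congr 1
    rw [div_mul_eq_div_div, div_self hW0, one_div]
  rw [eQ, eG, eW] at h6
  have key : singularSeries α x (fam P c) 𝒩 z * #𝒩 = siftedPoints α x (fam P c) 𝒩 z *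
      (∏ p ∈ (range z).filter Nat.Prime, (1 - 1 / (p : ℝ)) ^ k)⁻¹ := by
    unfold singularSeries
    rcases Nat.eq_zero_or_pos (#𝒩) with h0 | h0
    · have hG : siftedPoints α x (fam P c) 𝒩 z = 0 := by
        have : siftedPoints α x (fam P c) 𝒩 z ≤ #𝒩 := card_filter_le _ _
        omega
      rw [h0, hG]
      simp
    · have h0' : (#𝒩 : ℝ) ≠ 0 := by positivity
      rw [div_eq_mul_inv (_ / _)]
      field_simp
  have key2 : (singularSeries α x (fam P c) 𝒩 z + 1) * #𝒩 = siftedPoints α x (fam P c) 𝒩 z *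
      (∏ p ∈ (range z).filter Nat.Prime, (1 - 1 / (p : ℝ)) ^ k)⁻¹ + #𝒩 := by
    rw [add_mul, key, one_mul]
  rw [mul_assoc ε, key2, key]
  exact h6

end Pool.Agent.Results.MP_746f10_nt.ArbitraryArguments
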