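import Pool.Agent.N837.LP.FinG

set_option autoImplicit false

/-!
# Systems of up to `K log X` linear forms, all of whose values are composite for many `n`

Let `α_i n + β_i` be pairwise non-proportional linear forms with coefficients at most `X ^ C` and with
`∑ |α_i| / φ(|α_i|) ≤ K (φ(D) / D) log X`.  Then for a positive proportion (in terms of `K`) of the `n`
coprime to `D` in EVERY interval of length `X` every `α_i n + β_i` has a prime factor at most `X ^ δ`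
which does not divide `D`.
-/

namespace Pool.Agent.Results.MP_746f10_nt.CompositeSystems

theorem result (δ : ℝ) (hδ : 0 < δ) : ∃ C₀ : ℝ, 0 ≤ C₀ ∧ ∀ K C : ℝ, 1 ≤ K → 1 ≤ C →
    ∃ X₀ : ℝ, ∀ X : ℝ, X₀ ≤ X → ∀ (ι : Type) [Fintype ι] (α β : ι → ℤ) (D : ℕ),
    0 < D → (D : ℝ) ≤ X ^ C → (∀ i, α i ≠ 0) → (∀ i, |(α i : ℝ)| ≤ X ^ C) →
    (∀ i, |(β i : ℝ)| ≤ X ^ C) → (∀ i j, i ≠ j → α i * β j - α j * β i ≠ 0) →
    ∑ i, ((α i).natAbs : ℝ) / ((α i).natAbs.totient : ℝ) ≤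
      K * ((D.totient : ℝ) / D) * Real.log X →
    ∀ M : ℝ, (D.totient : ℝ) / D * X * Real.exp (-Real.exp (16 * K + C₀)) ≤
      (({n : ℤ | M < n ∧ (n : ℝ) ≤ M + X ∧ IsCoprime n (D : ℤ) ∧
        ∀ i, ∃ p : ℕ, p.Prime ∧ (p : ℝ) ≤ X ^ δ ∧ ¬ p ∣ D ∧ (p : ℤ) ∣ α i * n + β i}).ncard : ℝ) :=
  Pool.Agent.N837.LP.mainG δ hδ

end Pool.Agent.Results.MP_746f10_nt.CompositeSystems
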