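import Mathlib
import Pool.Agent.N893.SM.Lin
import Pool.Agent.N740.HK.Lim

/-!
# The uniform prime k-tuplets conjecture in all sieved sequential random models of the primes

The integers are decided one after the other; the multiples of the primes of a finite set `Q` are
never chosen and the conditional probability of choosing an integer `n + 1` which is not such a
multiple, given the decisions up to `n`, is asymptotic to `∏_{p ∈ Q} (1 - 1 / p)⁻¹ / log n`, almost
surely.  No independence and no rate of convergence are assumed.  In every such model, almost surely, for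
every `k` the least `n` for which all the values of `k` linear forms `a_i x + b_i`, `1 ≤ b_i < a_i ≤ a`,
admissible at the primes of `Q`, are chosen, is at most `γ (log a) ^ (k + 1)`, for ALL the systems, and the
number of the solutions is asymptotically the expected one, uniformly for all the systems, from
`K (log a) ^ (k + 1)` on.

Method (`Pool/Agent/N893/SM`): the values of the forms at `n` are arranged in increasing order (the order
depends on `n`; the value number `j` is a strictly increasing function of `n`) and replaced one after the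
other by their probabilities; the error of one replacement is controlled by the exponential supermartingale
`exp (θ ∑ w I - (e ^ θ - 1) ∑ w P)` with a fixed small `θ`.

The notion of a sequential model and the theorem on Hawkins' sieve are from the team files by helper528
(`Pool/Agent/R528/RM`) and helper740 (`Pool/Agent/N740/HK`).
-/

set_option autoImplicit false

open MeasureTheory Filter Set
open scoped Topology

namespace Pool.Agent.Results.MP_746f10_nt.SievedModels

variable {Ω : Type}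

/-- `A n` is the event that `n` is chosen; adapted to `ℱ`; multiples of the primes in `Q` are not
chosen; the conditional probability of `A (n + 1)` given `ℱ n`, times `log n`, tends almost surely to
`∏_{p ∈ Q} (1 - 1 / p)⁻¹` along the `n` such that no `p ∈ Q` divides `n + 1` -/
def SievedModel [m : MeasurableSpace Ω] (μ : Measure Ω) (ℱ : Filtration ℕ m) (A : ℕ → Set Ω)
    (Q : Finset ℕ) : Prop :=
  (∀ n, MeasurableSet[ℱ n] (A n)) ∧ (∀ n, (∃ p ∈ Q, p ∣ n) → A n = ∅) ∧
  ∀ᵐ ω ∂μ, Tendsto (fun n : ℕ => (μ[(A (n + 1)).indicator (fun _ => (1 : ℝ)) | ℱ n]) ω * Real.log n)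
    (atTop ⊓ 𝓟 {n : ℕ | ∀ p ∈ Q, ¬ p ∣ n + 1}) (𝓝 (∏ p ∈ Q, (1 - 1 / (p : ℝ))⁻¹))

open Classical in
/-- The random sieve of Hawkins: `2` is chosen, and given the decisions up to `n ≥ 2` the number
`n + 1` is chosen with probability `∏ (1 - 1 / h)`, the product over the chosen `2 ≤ h ≤ n`. -/
def HawkinsSieve [m : MeasurableSpace Ω] (μ : Measure Ω) (ℱ : Filtration ℕ m) (A : ℕ → Set Ω) : Prop :=
  (∀ n, MeasurableSet[ℱ n] (A n)) ∧ A 2 = univ ∧
  ∀ n, 2 ≤ n → μ[(A (n + 1)).indicator (fun _ => (1 : ℝ)) | ℱ n] =ᵐ[μ]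
    fun ω => ∏ h ∈ Finset.Icc 2 n, if ω ∈ A h then 1 - 1 / (h : ℝ) else 1

/-- the number of `0 ≤ n < x` such that `a n + b` is chosen for all pairs `(a, b)` in `s` -/
noncomputable def solutions (A : ℕ → Set Ω) (ω : Ω) (s : Finset (ℕ × ℕ)) (x : ℕ) : ℕ :=
  {n : ℕ | n < x ∧ ∀ f ∈ s, ω ∈ A (f.1 * n + f.2)}.ncard

/-- for every prime `p` of `Q` there is an `n` such that `p` does not divide any `a n + b`, `(a, b) ∈ s` -/
def Admissible (Q : Finset ℕ) (s : Finset (ℕ × ℕ)) : Prop := ∀ p ∈ Q, ∃ n : ℕ, ∀ f ∈ s, ¬ p ∣ f.1 * n + f.2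

open Classical in
/-- the asymptotic probability of `m` -/
noncomputable def prob (Q : Finset ℕ) (m : ℕ) : ℝ :=
  if ∀ p ∈ Q, ¬ p ∣ m then min 1 ((∏ p ∈ Q, (1 - 1 / (p : ℝ))⁻¹) / Real.log m) else 0

/-- the expected number of solutions -/
noncomputable def expected (Q : Finset ℕ) (s : Finset (ℕ × ℕ)) (x : ℕ) : ℝ :=
  ∑ n ∈ Finset.range x, ∏ f ∈ s, prob Q (f.1 * n + f.2)

open Pool.Agent.R528.RM Pool.Agent.N893.SM

lemma solutions_eq (A : ℕ → Set Ω) (ω : Ω) (s : Finset (ℕ × ℕ)) (x : ℕ) :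
    (solutions A ω s x : ℝ) = TF A s x ω := by
  classical
  unfold solutions TF val
  have h1 : ∀ n, (∏ f ∈ s, In A (f.1 * n + f.2) ω) = if (∀ f ∈ s, ω ∈ A (f.1 * n + f.2)) then (1 : ℝ) else 0 := by
    intro n
    by_cases h : ∀ f ∈ s, ω ∈ A (f.1 * n + f.2)
    · rw [if_pos h]
      refine Finset.prod_eq_one fun d hd => ?_
      unfold In
      exact indicator_of_mem (h d hd) _
    · rw [if_neg h]
      push Not at h
      obtain ⟨d, hd, hn⟩ := h
      refine Finset.prod_eq_zero hd ?_
      unfold In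
      exact indicator_of_notMem hn _
  simp_rw [h1]
  rw [Finset.sum_boole]
  congr 1
  rw [← Set.ncard_coe_finset]
  congr 1
  ext n
  simp

lemma prob_eq (Q : Finset ℕ) (hQ : ∀ p ∈ Q, p.Prime) (m : ℕ) : prob Q m = rhoW (∏ p ∈ Q, p) m := by
  unfold prob rhoW
  rw [totient_prod Q hQ]
  simp_rw [coprime_prod_iff Q hQ m]

lemma expected_eq (Q : Finset ℕ) (hQ : ∀ p ∈ Q, p.Prime) (s : Finset (ℕ × ℕ)) (x : ℕ) :
    expected Q s x = EF (rhoW (∏ p ∈ Q, p)) s x := by
  unfold expected EF val
  simp_rw [prob_eq Q hQ]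

end Pool.Agent.Results.MP_746f10_nt.SievedModels

open Pool.Agent.Results.MP_746f10_nt.SievedModels

/-- Hawkins' sieve is a sieved model with `Q = ∅`; and in every sieved model, almost surely, for every
`k`: (1) there is a `γ` such that for ALL sets of `k` linear forms `a_i x + b_i`, `1 ≤ b_i < a_i ≤ a`, admissible at
the primes of `Q`, there is an integer `n`, `0 ≤ n ≤ γ (log a) ^ (k + 1)`, for which all `a_i n + b_i` are
chosen; (2) for every `ε > 0` there is a `K` such that for all large `Y`, all `K (log Y) ^ (k + 1) ≤ x ≤ Y` and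
ALL sets of `k` linear forms with coefficients `1 ≤ a_i, b_i ≤ Y`, admissible at the primes of `Q`, the
number of the `n < x` for which all `a_i n + b_i` are chosen differs from the expected one, which is positive,
by at most its `ε`-fold. -/
theorem Pool.Agent.Results.MP_746f10_nt.SievedModels.result
    {Ω : Type} [m : MeasurableSpace Ω] (μ : Measure Ω) [IsProbabilityMeasure μ]
    (ℱ : Filtration ℕ m) (A : ℕ → Set Ω) :
    (HawkinsSieve μ ℱ A → SievedModel μ ℱ A ∅) ∧
    (∀ Q : Finset ℕ, (∀ p ∈ Q, p.Prime) → SievedModel μ ℱ A Q → ∀ᵐ ω ∂μ, ∀ k : ℕ,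
      (∃ γ : ℝ, 0 < γ ∧ ∀ s : Finset (ℕ × ℕ), s.card = k → (∀ f ∈ s, 1 ≤ f.2 ∧ f.2 < f.1) → Admissible Q s →
        ∀ a : ℕ, 2 ≤ a → (∀ f ∈ s, f.1 ≤ a) →
        ∃ n : ℕ, (n : ℝ) ≤ γ * Real.log a ^ (k + 1) ∧ ∀ f ∈ s, ω ∈ A (f.1 * n + f.2)) ∧
      (∀ ε : ℝ, 0 < ε → ∃ K : ℝ, 0 < K ∧ ∀ᶠ Y : ℕ in atTop, ∀ x : ℕ, K * Real.log Y ^ (k + 1) ≤ x → x ≤ Y →
        ∀ s : Finset (ℕ × ℕ), s.card = k → (∀ f ∈ s, (1 ≤ f.1 ∧ f.1 ≤ Y) ∧ (1 ≤ f.2 ∧ f.2 ≤ Y)) → Admissible Q s →
        0 < expected Q s x ∧ |(solutions A ω s x : ℝ) - expected Q s x| ≤ ε * expected Q s x)) := by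
  classical
  constructor
  · rintro ⟨h1, h2, h3⟩
    have hs : Pool.Agent.N740.HK.HS μ ℱ A := ⟨h1, h2, fun n hn => by
      filter_upwards [h3 n hn] with ω hω
      have e : (∏ h ∈ Finset.Icc 2 n, if ω ∈ A h then 1 - 1 / (h : ℝ) else 1) =
          (Pool.Agent.N740.HK.Y A n ω)⁻¹ := by
        unfold Pool.Agent.N740.HK.Y
        rw [← Finset.prod_inv_distrib]
        refine Finset.prod_congr rfl fun h hh => ?_
        have h2 : (2 : ℝ) ≤ h := by exact_mod_cast (Finset.mem_Icc.1 hh).1
        by_cases hA : ω ∈ A h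
        · rw [if_pos hA, if_pos hA, inv_div]
          field_simp
        · rw [if_neg hA, if_neg hA, inv_one]
      rw [← e]
      exact hω⟩
    refine ⟨h1, fun n hn => ?_, ?_⟩
    · obtain ⟨p, hp, _⟩ := hn
      exact absurd hp (Finset.notMem_empty p)
    · filter_upwards [Pool.Agent.N740.HK.hawk_dens hs] with ω hω
      rw [Finset.prod_empty]
      exact hω.mono_left inf_le_left
  · rintro Q hQ ⟨hA, hcop, hd⟩
    filter_upwards [Pool.Agent.N893.SM.lin (μ := μ) hA Q hQ hcop hd] with ω hω k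
    have hsub : ∀ (Y : ℕ) (s : Finset (ℕ × ℕ)), (∀ f ∈ s, (1 ≤ f.1 ∧ f.1 ≤ Y) ∧ (1 ≤ f.2 ∧ f.2 ≤ Y)) →
        s ⊆ Finset.Icc 1 Y ×ˢ Finset.Icc 1 Y := fun Y s h f hf =>
      Finset.mem_product.2 ⟨Finset.mem_Icc.2 (h f hf).1, Finset.mem_Icc.2 (h f hf).2⟩
    constructor
    · obtain ⟨K, hK0, hK⟩ := hω k (1 / 2) (by norm_num) (by norm_num)
      have hlogpow : ∀ᶠ Y : ℕ in atTop, K * Real.log Y ^ (k + 1) + 1 ≤ Y := by
        have h1 := (isLittleO_log_rpow_rpow_atTop ((k + 1 : ℕ) : ℝ) (zero_lt_one)).bound (show 0 < 1 / (2 * K) by positivity)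
        filter_upwards [tendsto_natCast_atTop_atTop.eventually h1, eventually_ge_atTop 2] with x h6 hx1
        have hx : (2 : ℝ) ≤ x := by exact_mod_cast hx1
        have hL : 0 ≤ Real.log (x : ℝ) := Real.log_nonneg (by linarith)
        rw [Real.norm_eq_abs, Real.norm_eq_abs, abs_of_nonneg (Real.rpow_nonneg hL _),
          abs_of_nonneg (Real.rpow_nonneg (by linarith) _), Real.rpow_natCast, Real.rpow_one] at h6
        have h7 := mul_le_mul_of_nonneg_left h6 hK0.le
        have h8 : K * (1 / (2 * K) * (x : ℝ)) = x / 2 := by field_simp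
        rw [h8] at h7
        linarith
      obtain ⟨Y₀, hY₀⟩ := eventually_atTop.1 ((hK.and hlogpow).and (eventually_ge_atTop 3))
      have hY₀3 : (3 : ℝ) ≤ (Y₀ : ℕ) := by exact_mod_cast (hY₀ Y₀ le_rfl).2
      have hlY : 1 ≤ Real.log (Y₀ : ℝ) := by
        rw [Real.le_log_iff_exp_le (by linarith)]
        exact (Real.exp_one_lt_d9.le.trans (by norm_num)).trans hY₀3
      have hl2 : 0 < Real.log 2 := Real.log_pos (by norm_num)
      refine ⟨(K + 1) * (Real.log Y₀ / Real.log 2) ^ (k + 1), by positivity, fun s hsk hs hadm a ha2 ha => ?_⟩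
      set Y := max a Y₀ with hY
      obtain ⟨⟨h1, h2⟩, h3⟩ := hY₀ Y (le_max_right _ _)
      set x : ℕ := ⌈K * Real.log Y ^ (k + 1)⌉₊ with hx
      have hxY : x ≤ Y := by
        have h4 : (x : ℝ) < K * Real.log Y ^ (k + 1) + 1 := by
          refine Nat.ceil_lt_add_one ?_
          have : 0 ≤ Real.log (Y : ℝ) := Real.log_natCast_nonneg Y
          positivity
        have h5 : (x : ℝ) < Y := by linarith
        exact_mod_cast h5.le
      have hs' : ∀ f ∈ s, (1 ≤ f.1 ∧ f.1 ≤ Y) ∧ (1 ≤ f.2 ∧ f.2 ≤ Y) := by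
        intro f hf
        have g1 := hs f hf
        have g2 := ha f hf
        have g3 : a ≤ Y := le_max_left _ _
        omega
      obtain ⟨g1, g2⟩ := h1 x hxY (Nat.le_ceil _) s (hsub Y s hs') hsk hadm
      rw [← solutions_eq] at g1
      have g3 := (abs_le.1 g1).1
      have g4 : (0 : ℝ) < solutions A ω s x := by linarith
      have g5 : solutions A ω s x ≠ 0 := by
        intro h0
        rw [h0] at g4
        simp at g4
      obtain ⟨n, hn⟩ := Set.nonempty_of_ncard_ne_zero g5
      refine ⟨n, ?_, hn.2⟩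
      have ha' : (2 : ℝ) ≤ a := by exact_mod_cast ha2
      have hla : Real.log 2 ≤ Real.log a := Real.log_le_log (by norm_num) ha'
      have hYbound : Real.log (Y : ℝ) ≤ Real.log Y₀ / Real.log 2 * Real.log a := by
        rcases le_total a Y₀ with h | h
        · rw [hY, max_eq_right h, div_mul_eq_mul_div, le_div_iff₀ hl2]
          exact mul_le_mul_of_nonneg_left hla (by linarith)
        · rw [hY, max_eq_left h, div_mul_eq_mul_div, le_div_iff₀ hl2, mul_comm]
          refine mul_le_mul_of_nonneg_right ?_ (by linarith)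
          exact Real.log_le_log (by norm_num) (by linarith)
      have hY1 : 1 ≤ Real.log (Y : ℝ) := by
        refine hlY.trans (Real.log_le_log (by linarith) ?_)
        exact_mod_cast le_max_right _ _
      have hn' : (n : ℝ) ≤ K * Real.log Y ^ (k + 1) + 1 := by
        have h4 : (x : ℝ) < K * Real.log Y ^ (k + 1) + 1 := Nat.ceil_lt_add_one (by positivity)
        have h5 : (n : ℝ) < x := by exact_mod_cast hn.1
        linarith
      have h6 : 1 ≤ Real.log (Y : ℝ) ^ (k + 1) := one_le_pow₀ hY1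
      calc (n : ℝ) ≤ (K + 1) * Real.log Y ^ (k + 1) := by linarith
        _ ≤ (K + 1) * (Real.log Y₀ / Real.log 2 * Real.log a) ^ (k + 1) :=
          mul_le_mul_of_nonneg_left (pow_le_pow_left₀ (by linarith) hYbound _) (by linarith)
        _ = _ := by rw [mul_pow]; ring
    · intro ε hε
      obtain ⟨K, hK0, hK⟩ := hω k (min ε 1) (lt_min hε one_pos) (min_le_right _ _)
      refine ⟨K, hK0, ?_⟩
      filter_upwards [hK] with Y hY x hx1 hx2 s hsk hs hadm
      obtain ⟨g1, g2⟩ := hY x hx2 hx1 s (hsub Y s hs) hsk hadm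
      rw [← solutions_eq] at g1
      rw [← expected_eq Q hQ] at g1 g2
      exact ⟨g2, g1.trans (mul_le_mul_of_nonneg_right (min_le_left _ _) g2.le)⟩
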