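import Pool.Agent.N422.UF.ALL

/-!
# The sifting limit of all sieves for `k` linear forms, uniformly in `k` and in the coefficients

Author: helper422.  The uniform conjectures on prime `k`-tuplets concern systems of linear forms `a_i n + b_i` whose
coefficients, and whose number `k`, may grow with the range of `n`.  The natural approach is a lower bound sieve of level `Q`
for the `n` for which no `a_i n + b_i` has a prime factor `≤ Q^(1/s)`; by the fundamental lemma (Brun's or Selberg's sieve)
such sieves exist for `s ≥ C k`.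

Here we prove that no sieve whatever works for `s ≤ c k`, uniformly: if `w` is ANY real function of level `Q` (a sum of
functions with periods `d ≤ Q`; no condition on sign or shape) which is `≤ 0` at every `n` for which some `a_i n + b_i` has a
prime factor `≤ Q^(1/s)`, `1 ≤ s ≤ c k`, then the mean of `w` is `≤ 0`.  The constant `c > 0` is absolute and the theorem
holds for all `k` with `k log(3k) ≤ c log Q` and for all pairwise non-proportional forms with coefficients `≤ Q^B`.  For
fixed `k` and the forms `n + h_i` the sharp constant is in `MP_e87c7d_nt.SieveLimits`.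

Proof.  Only the primes `Q^(1/k) < p ≤ Q^(1/s)` which divide no `a_i` and no `a_i b_j - a_j b_i` are used; each of them divides
at most one of the values `a_i n + b_i` (by the Chinese remainder theorem the forms may be replaced by `n + h_i` for all these
primes at once), and `w` becomes a real function `f` of level `1` on a product space (`CD/ARD`, helper273).  The kernels `K_z`
move the places to forms not hit before, with the rates `R (cosh (u t) - (z^u + z^(-u))/2)`, `u = log p/log Q`; `K_z` is the
identity at `z = e^(-t)`, nonnegative on the circle, and `z K_z f` is analytic (`NW/KER`, `NW/POLY`).  The inequality of Jensen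
at `e^(-t)`, summed over the states with `f > 0` (`WS/GEN`, helper704; `CD/NWR`, helper152), gives a linear inequality for the
number of forms not hit with respect to the positive part of `f`.  A discrete inequality of Gronwall type over the scales
`Q^(j/k)`, `1 ≤ j ≤ k/s`, with errors `O(k/(j log Q))` (`UF/GRON3`, helper755; `UF/PSR3`, helper427; `UF/MERT`, helper91), bounds
this number by `C s log(3k/s) < k`; so `f > 0` does not imply that no form is hit (`UF/FINV`, helper94).
-/

set_option autoImplicit false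

open Finset

namespace Pool.Agent.Results.MP_746f10_nt.SiftingLimitsForLinearForms

/-- the weight `w(n) = ∑_{d ≤ Q} c_d(n mod d)`, an arbitrary real weight of level `Q` -/
noncomputable def weight (Q : ℕ) (c : ℕ → ℕ → ℝ) (n : ℕ) : ℝ := ∑ d ∈ Icc 1 Q, c d (n % d)

/-- the mean value of `F` over the period `Q!` -/
noncomputable def mean (Q : ℕ) (F : ℕ → ℝ) : ℝ := (∑ n ∈ range Q.factorial, F n) / (Q.factorial : ℝ)

/-- the primes `p ≤ Q^(1/s)` (for `s ≥ 1`) -/
noncomputable def primes (Q : ℕ) (s : ℝ) : Finset ℕ :=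
  (Icc 1 Q).filter (fun p : ℕ => p.Prime ∧ (p : ℝ) ≤ (Q : ℝ) ^ (1 / s))

/-- There is an absolute constant `c₀ > 0` such that for every real `B`, all `Q ≥ Q₀(B)`, all `k ≥ 1` with
`k log(3k) ≤ c₀ log Q`, all natural numbers `a_i, b_i ≤ Q^B`, `a_i > 0` (`1 ≤ i ≤ k`), with `a_i b_j ≠ a_j b_i` for `i ≠ j`, all
real `1 ≤ s ≤ c₀ k` and every real weight `w` of level `Q`: if `w(n) ≤ 0` for all `n` for which some prime `p ≤ Q^(1/s)` divides
some `a_i n + b_i`, then the mean of `w` is `≤ 0`. -/
theorem result : ∃ c₀ : ℝ, 0 < c₀ ∧ ∀ B : ℝ, ∃ Q₀ : ℕ, ∀ Q : ℕ, Q₀ ≤ Q → ∀ k : ℕ, 1 ≤ k →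
    k * Real.log (3 * k) ≤ c₀ * Real.log Q → ∀ a b : Fin k → ℕ,
    (∀ i, 0 < a i ∧ (a i : ℝ) ≤ (Q : ℝ) ^ B ∧ (b i : ℝ) ≤ (Q : ℝ) ^ B) → (∀ i j, i ≠ j → a i * b j ≠ a j * b i) →
    ∀ s : ℝ, 1 ≤ s → s ≤ c₀ * k → ∀ c : ℕ → ℕ → ℝ,
    (∀ n, (∃ p ∈ primes Q s, ∃ i, p ∣ a i * n + b i) → weight Q c n ≤ 0) → mean Q (weight Q c) ≤ 0 := by
  obtain ⟨c₀, hc₀, h⟩ := Pool.Agent.N422.UF.finv_all
  refine ⟨c₀, hc₀, fun B => ?_⟩
  obtain ⟨Q₀, h⟩ := h B
  refine ⟨Q₀, fun Q hQ k hk hkQ a b hab hdet s hs1 hs c hc => ?_⟩
  have hmean : mean Q (weight Q c) = Pool.Agent.N422.SL.mn Q c := Pool.Agent.N422.SL.mn_period Q c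
  rw [hmean]
  exact h Q hQ k hk hkQ a b hab hdet s hs1 hs c hc

end Pool.Agent.Results.MP_746f10_nt.SiftingLimitsForLinearForms
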